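import Mathlib
import Pool.Agent.PPB.Abs

/-!
# MP_9a7d8c_co: an upper bound for the Möbius function of the permutation pattern poset

For all permutations `σ ≤ π` of lengths `k ≤ n` one has `|μ(σ, π)| ≤ n! / k!`, and
`|μ(1, π)| ≤ n! / 3` for every `π` of length `n ≥ 3`; so `M(n) ≤ n! / 3` for `n ≥ 3`.
-/

set_option autoImplicit false

namespace Pool.Agent.Results.MP_9a7d8c_co.UpperBound

open Finset

/-- Permutations of all finite lengths `≥ 1`: the pair `⟨n, p⟩` is the word
`p 0, p 1, …, p n` of length `n + 1`. -/
structure Pattern where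
  /-- the length minus one -/
  last : ℕ
  /-- the letters -/
  word : Equiv.Perm (Fin (last + 1))

/-- The length of a permutation. -/
def Pattern.length (x : Pattern) : ℕ := x.last + 1

/-- `σ` is contained in `π`: some subsequence of `π` has the same relative order as `σ`. -/
def Contained (σ π : Pattern) : Prop :=
  ∃ f : Fin (σ.1 + 1) → Fin (π.1 + 1), StrictMono f ∧
    ∀ i j, σ.word i < σ.word j ↔ π.word (f i) < π.word (f j)

theorem eq_id {n : ℕ} {f : Fin n → Fin n} (hf : StrictMono f) : f = id := by
  have h1 : Set.range f = Set.range (id : Fin n → Fin n) := by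
    rw [Set.range_id]
    exact Set.range_eq_univ.2 (Finite.surjective_of_injective hf.injective)
  exact (StrictMono.range_inj hf strictMono_id).1 h1

theorem perm_unique {n : ℕ} {p q : Equiv.Perm (Fin n)} (h : ∀ i j, p i < p j ↔ q i < q j) :
    p = q := by
  have h1 : StrictMono (fun i => q (p.symm i)) := by
    intro a b hab
    have := (h (p.symm a) (p.symm b)).1 (by simpa using hab)
    exact this
  have h2 := eq_id h1
  ext i
  have h3 := congrFun h2 (p i)
  simp only [Equiv.symm_apply_apply, id] at h3
  rw [h3]

theorem contained_len {σ π : Pattern} (h : Contained σ π) : σ.1 ≤ π.1 := by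
  obtain ⟨f, hf, -⟩ := h
  have := Fintype.card_le_of_injective f hf.injective
  simpa using this

theorem contained_eq {σ π : Pattern} (h : Contained σ π) (hl : σ.1 = π.1) : σ = π := by
  obtain ⟨n, p⟩ := σ
  obtain ⟨k, q⟩ := π
  dsimp only at hl
  subst hl
  obtain ⟨f, hf, h1⟩ := h
  have h2 : f = id := eq_id hf
  subst h2
  have : p = q := perm_unique h1
  rw [this]

/-- The permutation pattern poset. -/
instance : PartialOrder Pattern where
  le := Contained
  le_refl x := ⟨id, strictMono_id, fun _ _ => Iff.rfl⟩
  le_trans x y z h1 h2 := by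
    obtain ⟨f, hf, h1⟩ := h1
    obtain ⟨g, hg, h2⟩ := h2
    exact ⟨g ∘ f, hg.comp hf, fun i j => (h1 i j).trans (h2 (f i) (f j))⟩
  le_antisymm x y h1 h2 := contained_eq h1 (le_antisymm (contained_len h1) (contained_len h2))

theorem lt_len {σ π : Pattern} (h : σ < π) : σ.1 < π.1 := by
  rcases (contained_len h.le).lt_or_eq with h1 | h1
  · exact h1
  · exact absurd (contained_eq h.le h1) h.ne

/-- Its intervals are finite. -/
noncomputable instance : LocallyFiniteOrder Pattern :=
  LocallyFiniteOrder.ofFiniteIcc (fun a b => by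
    have h : (⋃ n ∈ Set.Iic b.1, Set.range
        (fun p : Equiv.Perm (Fin (n + 1)) => (⟨n, p⟩ : Pattern))).Finite :=
      Set.Finite.biUnion (Set.finite_Iic b.1) (fun n _ => Set.finite_range _)
    refine h.subset ?_
    rintro ⟨n, p⟩ hx
    exact Set.mem_biUnion (Set.mem_Iic.2 (contained_len hx.2)) ⟨p, rfl⟩)

noncomputable instance : DecidableEq Pattern := Classical.decEq _

/-- The permutation `1` of length one. -/
def one : Pattern := ⟨0, 1⟩

/-- The Möbius function of the permutation pattern poset (Mathlib's `IncidenceAlgebra.mu`). -/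
noncomputable def mu (σ π : Pattern) : ℤ := IncidenceAlgebra.mu ℤ σ π

/-- `mu` is given by the recursion of the problem. -/
theorem mu_spec (σ : Pattern) : mu σ σ = 1 ∧
    ∀ π : Pattern, σ < π → mu σ π = - ∑ τ ∈ Finset.Ico σ π, mu σ τ :=
  ⟨IncidenceAlgebra.mu_self σ, fun _ h => IncidenceAlgebra.mu_eq_neg_sum_Ico_of_ne h.ne⟩

/-- The standardization of an injective word. -/
noncomputable def std {k m : ℕ} (h : Fin k → Fin m) : Equiv.Perm (Fin k) := (Tuple.sort h).symm

theorem std_lt {k m : ℕ} {h : Fin k → Fin m} (hi : Function.Injective h) (i j : Fin k) :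
    std h i < std h j ↔ h i < h j := by
  have h1 : StrictMono (h ∘ Tuple.sort h) :=
    (Tuple.monotone_sort h).strictMono_of_injective (hi.comp (Tuple.sort h).injective)
  have h2 := h1.lt_iff_lt (a := std h i) (b := std h j)
  simpa [std] using h2.symm

/-- The permutations obtained by removing one letter. -/
noncomputable def coatoms : Pattern → Finset Pattern
  | ⟨0, _⟩ => ∅
  | ⟨k + 1, p⟩ => Finset.univ.image
      (fun i : Fin (k + 2) => (⟨k, std (fun j => p (i.succAbove j))⟩ : Pattern))

theorem coatoms_len (x : Pattern) (c : Pattern) (hc : c ∈ coatoms x) : c.1 + 1 = x.1 := by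
  obtain ⟨n, p⟩ := x
  cases n with
  | zero => simp [coatoms] at hc
  | succ k =>
    rw [coatoms, Finset.mem_image] at hc
    obtain ⟨i, -, rfl⟩ := hc
    rfl

theorem coatoms_cover (x y : Pattern) (h : y < x) : ∃ c ∈ coatoms x, y ≤ c := by
  have hl := lt_len h
  obtain ⟨n, p⟩ := x
  cases n with
  | zero => exact absurd hl (Nat.not_lt_zero _)
  | succ k =>
    obtain ⟨f, hf, h1⟩ := h.le
    have hns : ¬ Function.Surjective f := by
      intro hs
      have := Fintype.card_le_of_surjective f hs
      simp only [Fintype.card_fin] at this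
      dsimp only at hl this
      omega
    simp only [Function.Surjective, not_forall, not_exists] at hns
    obtain ⟨i, hi⟩ := hns
    have h2 : ∀ j, ∃ l : Fin (k + 1), i.succAbove l = f j := fun j =>
      Fin.exists_succAbove_eq (hi j)
    choose g hg using h2
    refine ⟨⟨k, std (fun j => p (i.succAbove j))⟩, ?_, ?_⟩
    · rw [coatoms, Finset.mem_image]
      exact ⟨i, Finset.mem_univ _, rfl⟩
    · refine ⟨g, ?_, ?_⟩
      · intro a b hab
        have h3 : i.succAbove (g a) < i.succAbove (g b) := by
          rw [hg, hg]
          exact hf hab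
        exact (Fin.strictMono_succAbove i).lt_iff_lt.1 h3
      · intro a b
        have h4 := std_lt (h := fun j => p (i.succAbove j))
          (p.injective.comp (Fin.strictMono_succAbove i).injective) (g a) (g b)
        simp only [hg] at h4
        exact (h1 a b).trans h4.symm

theorem card_coatoms_le (x : Pattern) : (coatoms x).card ≤ x.1 + 1 := by
  obtain ⟨n, p⟩ := x
  cases n with
  | zero => simp [coatoms]
  | succ k =>
    rw [coatoms]
    refine Finset.card_image_le.trans ?_
    simp

theorem card_coatoms_le' (x : Pattern) : (coatoms x).card ≤ (x.1).factorial := by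
  obtain ⟨n, p⟩ := x
  cases n with
  | zero => simp [coatoms]
  | succ k =>
    have h1 : coatoms ⟨k + 1, p⟩ ⊆ Finset.univ.image
        (fun q : Equiv.Perm (Fin (k + 1)) => (⟨k, q⟩ : Pattern)) := by
      intro c hc
      rw [coatoms, Finset.mem_image] at hc
      obtain ⟨i, -, rfl⟩ := hc
      exact Finset.mem_image_of_mem _ (Finset.mem_univ _)
    refine (Finset.card_le_card h1).trans (Finset.card_image_le.trans ?_)
    rw [Finset.card_univ, Fintype.card_perm, Fintype.card_fin]

/-- The general bound, from any weight `b` with `(number of coatoms) * b (n - 1) ≤ b n`. -/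
theorem bound (b : ℕ → ℕ) (a : Pattern) (hb : 1 ≤ b a.1)
    (hs : ∀ x : Pattern, a < x → (coatoms x).card * b (x.1 - 1) ≤ b x.1) (x : Pattern)
    (hax : a ≤ x) : |mu a x| ≤ b x.1 := by
  have h := Pool.Agent.PPB.conv_bound a (fun y => mu a y)
    (by simp [mu])
    (fun x hx => by
      have := IncidenceAlgebra.sum_Icc_mu_right (𝕜 := ℤ) a x
      rw [if_neg hx.ne] at this
      exact this)
    coatoms (fun x => b x.1) (fun x => x.1) hb
    (fun x y _ hyx => coatoms_cover x y hyx)
    (fun x c hc => by
      have := coatoms_len x c hc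
      omega)
    (fun x hx => by
      refine le_trans (le_of_eq ?_) (hs x hx)
      rw [← smul_eq_mul]
      refine Finset.sum_const_nat ?_ |>.trans (by rw [smul_eq_mul])
      intro c hc
      have := coatoms_len x c hc
      congr 1
      omega)
    x.1 x hax le_rfl {x} (by simpa using hax) (by
      intro y hy w hw z hyz hzw
      rw [Finset.mem_singleton] at hy hw ⊢
      subst hy
      subst hw
      exact le_antisymm hzw hyz)
  simpa using h

/-- The weight for `σ = 1`. -/
def wt : ℕ → ℕ
  | 0 => 1
  | k + 1 => min (k + 2) (k + 1).factorial * wt k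

theorem wt_eq (n : ℕ) : 3 * wt (n + 2) = (n + 3).factorial := by
  induction n with
  | zero => decide
  | succ n ih =>
    have h1 : n + 4 ≤ (n + 3).factorial := by
      have h2 : (n + 3).factorial = (n + 3) * (n + 2).factorial := Nat.factorial_succ _
      have h3 : 2 ≤ (n + 2).factorial := by
        calc 2 = Nat.factorial 2 := rfl
          _ ≤ (n + 2).factorial := Nat.factorial_le (by omega)
      rw [h2]
      nlinarith
    have h2 : wt (n + 1 + 2) = (n + 4) * wt (n + 2) := by
      show min (n + 2 + 2) (n + 2 + 1).factorial * wt (n + 2) = _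
      rw [min_eq_left h1]
    have h3 : (n + 1 + 3).factorial = (n + 4) * (n + 3).factorial := Nat.factorial_succ _
    rw [h2, h3, ← ih]
    ring

/-- **Main theorem.**  In the permutation pattern poset `|μ(1, π)| ≤ n! / 3` for every permutation
`π` of length `n ≥ 3`, and `|μ(σ, π)| ≤ n! / k!` for all `σ ≤ π` of lengths `k` and `n`. -/
theorem result :
    (∀ π : Pattern, 3 ≤ π.length → 3 * |mu one π| ≤ (π.length).factorial) ∧
    (∀ σ π : Pattern, σ ≤ π →
      (σ.length).factorial * |mu σ π| ≤ (π.length).factorial) := by
  constructor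
  · intro x hx
    have hone : one ≤ x := by
      refine ⟨fun _ => 0, fun i j hij => ?_, fun i j => ?_⟩
      · have : i = j := Subsingleton.elim (α := Fin 1) i j
        exact absurd hij (by rw [this]; exact lt_irrefl _)
      · have : i = j := Subsingleton.elim (α := Fin 1) i j
        rw [this]
        simp
    have h := bound wt one (by decide) (fun y hy => by
      have h1 := card_coatoms_le y
      have h2 := card_coatoms_le' y
      have h3 : 0 < y.1 := (Nat.zero_le _).trans_lt (lt_len hy)
      obtain ⟨n, hn⟩ : ∃ n, y.1 = n + 1 := ⟨y.1 - 1, by omega⟩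
      rw [hn] at h1 h2 ⊢
      exact Nat.mul_le_mul_right _ (le_min h1 h2)) x hone
    obtain ⟨n, hn⟩ : ∃ n, x.1 = n + 2 := ⟨x.1 - 2, by
      unfold Pattern.length at hx
      omega⟩
    have h4 := wt_eq n
    unfold Pattern.length
    rw [hn] at h ⊢
    have h5 : (3 : ℤ) * wt (n + 2) = ((n + 3).factorial : ℕ) := by exact_mod_cast h4
    have h6 : n + 2 + 1 = n + 3 := rfl
    rw [h6, ← h5]
    linarith
  · intro a x hax
    -- the weight `(n + 1)! / (k + 1)!`
    have key : ∀ n, a.1 ≤ n → (a.1 + 1).factorial * ((n + 1).factorial / (a.1 + 1).factorial)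
        = (n + 1).factorial := fun n hn =>
      Nat.mul_div_cancel' (Nat.factorial_dvd_factorial (by omega))
    have hpos : 0 < (a.1 + 1).factorial := Nat.factorial_pos _
    have h := bound (fun n => (n + 1).factorial / (a.1 + 1).factorial) a
      (by simp [Nat.div_self hpos]) (fun y hy => by
        have h1 := card_coatoms_le y
        have h3 : a.1 < y.1 := lt_len hy
        obtain ⟨n, hn⟩ : ∃ n, y.1 = n + 1 := ⟨y.1 - 1, by omega⟩
        rw [hn] at h1 h3 ⊢
        refine le_of_mul_le_mul_left ?_ hpos
        have e1 := key (n + 1) (by omega)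
        have e2 := key n (by omega)
        rw [e1]
        have e3 : n + 1 - 1 = n := rfl
        rw [e3]
        calc (a.1 + 1).factorial * ((coatoms y).card *
              ((n + 1).factorial / (a.1 + 1).factorial))
            = (coatoms y).card * ((a.1 + 1).factorial *
              ((n + 1).factorial / (a.1 + 1).factorial)) := by ring
          _ = (coatoms y).card * (n + 1).factorial := by rw [e2]
          _ ≤ (n + 1 + 1) * (n + 1).factorial := Nat.mul_le_mul_right _ h1
          _ = (n + 1 + 1).factorial := (Nat.factorial_succ _).symm) x hax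
    have e := key x.1 (contained_len hax)
    unfold Pattern.length
    calc (((a.1 + 1).factorial : ℕ) : ℤ) * |mu a x|
        ≤ (((a.1 + 1).factorial : ℕ) : ℤ) *
          (((x.1 + 1).factorial / (a.1 + 1).factorial : ℕ) : ℤ) :=
          mul_le_mul_of_nonneg_left h (by positivity)
      _ = (((x.1 + 1).factorial : ℕ) : ℤ) := by
          exact_mod_cast e

end Pool.Agent.Results.MP_9a7d8c_co.UpperBound
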